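import Pool.Agent.H705.FP.Fin2

/-!
# Gonek's statement for sums over zeros with slightly moved ordinates and fixed phases

Formally `M (x) / √x` and `L (x) / √x` are sums of waves `a n cos (γ n t + β n)`, `t = log x`, over the zeros `1/2 + i γ n` of zeta
with `γ n > 0`, plus a constant, where `a n = 2 / |ρ ζ' (ρ)|`, respectively `2 |ζ (2 ρ)| / |ρ ζ' (ρ)|`. Here ONLY the ordinates are
moved: `γ n = g n + w n u n` with independent `u n`, uniformly distributed on `[0, 1]`, where `w n` may be as small as a fixed power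
`(n + 2) ^ (-A)`; the phases `β n` and the amplitudes `a n` are fixed numbers (for instance the true ones). In
`MP_46285d_nt.RandomOrdinates` the phases are random too. `F` is the primitive of the series (absolutely convergent), and
`avg F c t = t ^ c (F (t + t ^ (-c)) - F t)` is its local average over `[t, t + t ^ (-c)]`, that is, over the short interval
`[x, x exp ((log x) ^ (-c))]`.
-/

set_option autoImplicit false

namespace Pool.Agent.Results.MP_a499ba_nt.FixedPhases

open MeasureTheory ProbabilityTheory Filter Topology Finset Pool.Agent.H705.FP Pool.Agent.H705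

/-- The model exists. Let `A` be a natural number, `√(n + 2) ≤ g n ≤ (n + 2) ^ A`, `(n + 2) ^ (-A) ≤ w n ≤ 1`, and let
`(a i, β i)`, `i ∈ ι`, be countably many sequences of amplitudes `a i n ≥ 0` with `∑_{n ≥ N} a i n ^ 2 ≤ C N ^ (-1 + ε)` for every
`ε > 0`, and of arbitrary real numbers `β i n`. Almost surely, for all `i` simultaneously: the series of the integrals over
`[0, t]` of the waves converges absolutely for all `t ≥ 0`, with sum `F t`, and for all real `κ > 0` and `c₀`: (1) for every
`0 < c < 1 / (2 A + 4)` the upper and lower limits of `(c₀ + avg F c t) / (log log t) ^ κ` as `t → ∞` are `Lam (a i) κ` and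
`- Lam (a i) κ`; (2) for every locally integrable function `S` with primitive `F` the upper limit of
`(c₀ + S t) / (log log t) ^ κ` is at least `Lam (a i) κ` and the lower limit is at most `- Lam (a i) κ`; (3) if, for some `B`, at
most `B log (y + 2)` of the `g n` lie in `[y, y + 1]`, for all `y ≥ 0`, then there are a locally integrable function `S` with
primitive `F` and a set `E` of measure at most `C T ^ (1 - 1 / (2 A + 4))` in `[0, T]`, `T ≥ 1`, such that the upper and lower limits
of `(c₀ + S t) / (log log t) ^ κ` as `t → ∞` outside `E` are `Lam (a i) κ` and `- Lam (a i) κ`. Here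
`Lam (a i) κ = limsup (a i 0 + … + a i (N - 1)) / (log N) ^ κ` in the extended reals. -/
theorem result :
    (∃ (Ω : Type) (_ : MeasurableSpace Ω) (P : Measure Ω) (U : ℕ → Ω → ℝ), ModelU P U) ∧
    ∀ (Ω : Type) [MeasurableSpace Ω] (P : Measure Ω) (U : ℕ → Ω → ℝ), ModelU P U →
      ∀ (A : ℕ) (g w : ℕ → ℝ), WinU A g w → ∀ (ι : Type) [Countable ι] (a β : ι → ℕ → ℝ), (∀ i, RO.Amp (a i)) →
        ∀ᵐ ω ∂P, ∀ i : ι, ∃ F : ℝ → ℝ,
          (∀ t : ℝ, 0 ≤ t → HasSum (fun n : ℕ => ∫ y in (0 : ℝ)..t,
            a i n * Real.cos ((g n + w n * U n ω) * y + β i n)) (F t)) ∧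
          (∀ κ c₀ : ℝ, 0 < κ →
            (∀ c : ℝ, 0 < c → c * (2 * A + 4) < 1 →
              Filter.limsup (fun t : ℝ => (((c₀ + avg F c t) / Real.log (Real.log t) ^ κ : ℝ) : EReal)) atTop =
                RO.Lam (a i) κ ∧
              Filter.liminf (fun t : ℝ => (((c₀ + avg F c t) / Real.log (Real.log t) ^ κ : ℝ) : EReal)) atTop =
                -RO.Lam (a i) κ) ∧
            ∀ S : ℝ → ℝ, (∀ t : ℝ, 0 ≤ t → IntervalIntegrable S volume 0 t ∧ ∫ y in (0 : ℝ)..t, S y = F t) →
              RO.Lam (a i) κ ≤ Filter.limsup (fun t : ℝ => (((c₀ + S t) / Real.log (Real.log t) ^ κ : ℝ) : EReal)) atTop ∧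
              Filter.liminf (fun t : ℝ => (((c₀ + S t) / Real.log (Real.log t) ^ κ : ℝ) : EReal)) atTop ≤
                -RO.Lam (a i) κ) ∧
          ∀ B : ℝ, Spc B g → ∃ (S : ℝ → ℝ) (E : Set ℝ) (C : ℝ),
            (∀ t : ℝ, 0 ≤ t → IntervalIntegrable S volume 0 t ∧ ∫ y in (0 : ℝ)..t, S y = F t) ∧
            (∀ T : ℝ, 1 ≤ T → (volume : Measure ℝ) (E ∩ Set.Icc 0 T) ≤
              ENNReal.ofReal (C * T ^ (1 - 1 / (2 * (A : ℝ) + 4)))) ∧
            ∀ κ c₀ : ℝ, 0 < κ →
              Filter.limsup (fun t : ℝ => (((c₀ + S t) / Real.log (Real.log t) ^ κ : ℝ) : EReal)) (atTop ⊓ 𝓟 Eᶜ) =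
                RO.Lam (a i) κ ∧
              Filter.liminf (fun t : ℝ => (((c₀ + S t) / Real.log (Real.log t) ^ κ : ℝ) : EReal)) (atTop ⊓ 𝓟 Eᶜ) =
                -RO.Lam (a i) κ :=
  Pool.Agent.H705.FP.main2

end Pool.Agent.Results.MP_a499ba_nt.FixedPhases
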