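import Pool.Agent.H158.GL.Main

set_option autoImplicit false

/-!
# The Liouville sum reaches Gonek's order, up to `(log log log x)^ε`, or the ordinates are closely related

`L(x) = ∑_{n ≤ x} λ(n)`, `F_ε(x) = √x (log log log x)^(5/4 - ε)`. Nothing is assumed (no Riemann hypothesis, no simple zeros).
Let `A > 1`. At least one of the following holds.

(a) For every `0 < ε ≤ 1` the upper limit of `L(x) / F_ε(x)` is `+∞` and the lower limit is `-∞`.

(b) For every `ε > 0` and all large `T` the ordinates `γ` in `(0, T]` of simple zeros `ρ = 1/2 + iγ` which occur in a signed sum of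
at least two distinct ordinates in `(0, T]` whose distance from `0` or from an ordinate `> 0` is at most `exp(-T^A)`, have
`∑ |ζ(2ρ)| / |ρ ζ'(ρ)| ≥ (log T)^(5/4 - ε)`.
-/

namespace Pool.Agent.Results.MP_a499ba_nt.LiouvilleOmegaOrRelations

open Filter Topology Complex

/-- the summatory function of the Liouville function -/
noncomputable def L (x : ℝ) : ℝ := ∑ n ∈ Finset.Icc 1 ⌊x⌋₊, ((ArithmeticFunction.liouville n : ℤ) : ℝ)

/-- the normalisation, with the exponent `5/4 - ε` -/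
noncomputable def F (ε x : ℝ) : ℝ := Real.sqrt x * Real.log (Real.log (Real.log x)) ^ (5 / 4 - ε)

/-- `γ` occurs in a signed sum of at least two distinct ordinates in `(0, T]` which is within `exp (-T^A)` of `0` or of a
positive ordinate -/
def Related (A T γ : ℝ) : Prop :=
  ∃ (S : Finset ℝ) (σ : ℝ → ℤ) (γ₀ : ℝ), γ ∈ S ∧ 2 ≤ S.card ∧
    (∀ t ∈ S, 0 < t ∧ t ≤ T ∧ riemannZeta (1 / 2 + t * I) = 0 ∧ (σ t = 1 ∨ σ t = -1)) ∧
    (γ₀ = 0 ∨ 0 < γ₀ ∧ riemannZeta (1 / 2 + γ₀ * I) = 0) ∧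
    |∑ t ∈ S, (σ t : ℝ) * t - γ₀| ≤ Real.exp (-(T ^ A))

theorem F_pos (ε : ℝ) : ∀ᶠ x : ℝ in atTop, 0 < F ε x := by
  have h1 : Tendsto (fun x : ℝ => Real.log (Real.log (Real.log x))) atTop atTop :=
    Real.tendsto_log_atTop.comp (Real.tendsto_log_atTop.comp Real.tendsto_log_atTop)
  filter_upwards [h1.eventually_gt_atTop 0, eventually_gt_atTop 0] with x h2 h3
  exact mul_pos (Real.sqrt_pos.2 h3) (Real.rpow_pos_of_pos h2 _)

/-- **Theorem.** `L` exceeds `√x (log log log x)^(5/4 - ε)` by any factor, with both signs, or there are close relations between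
the ordinates which carry the amplitudes. -/
theorem result (A : ℝ) (hA : 1 < A) :
    (∀ ε : ℝ, 0 < ε → ε ≤ 1 →
      limsup (fun x : ℝ => ((L x / F ε x : ℝ) : EReal)) atTop = ⊤ ∧
      liminf (fun x : ℝ => ((L x / F ε x : ℝ) : EReal)) atTop = ⊥) ∨
    ∀ ε : ℝ, 0 < ε → ∀ᶠ T : ℝ in atTop, ∃ R : Finset ℝ,
      (∀ γ ∈ R, 0 < γ ∧ γ ≤ T ∧ riemannZeta (1 / 2 + γ * I) = 0 ∧ deriv riemannZeta (1 / 2 + γ * I) ≠ 0 ∧ Related A T γ) ∧
      Real.log T ^ (5 / 4 - ε) ≤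
        ∑ γ ∈ R, ‖riemannZeta (1 + 2 * γ * I)‖ / ‖(1 / 2 + γ * I) * deriv riemannZeta (1 / 2 + γ * I)‖ := by
  by_cases hb : ∀ ε : ℝ, 0 < ε → ∀ᶠ T : ℝ in atTop, ∃ R : Finset ℝ,
      (∀ γ ∈ R, 0 < γ ∧ γ ≤ T ∧ riemannZeta (1 / 2 + γ * I) = 0 ∧ deriv riemannZeta (1 / 2 + γ * I) ≠ 0 ∧ Related A T γ) ∧
      Real.log T ^ (5 / 4 - ε) ≤
        ∑ γ ∈ R, ‖riemannZeta (1 + 2 * γ * I)‖ / ‖(1 / 2 + γ * I) * deriv riemannZeta (1 / 2 + γ * I)‖
  · exact Or.inr hb
  left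
  intro ε hε hε1
  have key : ∀ s B : ℝ, (s = 1 ∨ s = -1) → 0 < B → Pool.Agent.H158.GL.OneSidedL s B (5 / 4 - ε) → False := by
    intro s B hs hB h
    apply hb
    intro ε' hε'
    filter_upwards [Pool.Agent.H158.GL.mainL hA.le hs hB hε hε1 h hε'] with T hT
    obtain ⟨R, hR, hsum⟩ := hT
    refine ⟨R, fun γ hγ => ?_, hsum⟩
    obtain ⟨h1, h2, h3, h4, S, σ, γ₀, hγS, hcard, hS, h0, hle⟩ := hR γ hγ
    exact ⟨h1, h2, h3, h4, S, σ, γ₀, hγS, hcard, hS, h0, hle⟩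
  constructor
  · by_contra hcon
    obtain ⟨w, hw1, hw2⟩ := EReal.lt_iff_exists_real_btwn.1 (lt_top_iff_ne_top.2 hcon)
    have h2 := eventually_lt_of_limsup_lt hw1 (by isBoundedDefault)
    refine key 1 (max w 1) (Or.inl rfl) (by positivity) ?_
    filter_upwards [h2, F_pos ε] with x h3 h4
    have h5 : L x / F ε x < w := EReal.coe_lt_coe_iff.1 h3
    rw [div_lt_iff₀ h4] at h5
    show 1 * L x ≤ max w 1 * F ε x
    rw [one_mul]
    exact h5.le.trans (mul_le_mul_of_nonneg_right (le_max_left _ _) h4.le)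
  · by_contra hcon
    obtain ⟨w, hw1, hw2⟩ := EReal.lt_iff_exists_real_btwn.1 (bot_lt_iff_ne_bot.2 hcon)
    have h2 := eventually_lt_of_lt_liminf hw2 (by isBoundedDefault)
    refine key (-1) (max (-w) 1) (Or.inr rfl) (by positivity) ?_
    filter_upwards [h2, F_pos ε] with x h3 h4
    have h5 : w < L x / F ε x := EReal.coe_lt_coe_iff.1 h3
    rw [lt_div_iff₀ h4] at h5
    show -1 * L x ≤ max (-w) 1 * F ε x
    have h6 : -w * F ε x ≤ max (-w) 1 * F ε x := mul_le_mul_of_nonneg_right (le_max_left _ _) h4.le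
    linarith

end Pool.Agent.Results.MP_a499ba_nt.LiouvilleOmegaOrRelations
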