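import Pool.Agent.H158.GM.Main

set_option autoImplicit false

/-!
# The order of magnitude of Gonek's conjecture for `M(x)`, or many extremely close relations between the zeros

`M(x) = ∑_{n ≤ x} μ(n)` and `F(x) = √x (log log log x)^{5/4}`, as in Q1. No hypothesis is assumed.

Call an ordinate `0 < γ ≤ T` of a zero of `ζ` on the critical line *related* (at height `T`, with exponent `A`) if it occurs in a signed
sum `± γ_1 ± ... ± γ_n` of `n ≥ 2` distinct ordinates `γ_j ≤ T` of zeros on the critical line which is at distance at most `exp(-T^A)`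
from `0` or from the ordinate `γ_0 > 0` of a zero on the critical line.

There is a constant `c > 0` such that for every `A > 1` at least one of the following holds.

* `limsup M/F ≥ c / A^{5/4}` and `liminf M/F ≤ - c / A^{5/4}`, so `M(x)` reaches the order `F(x)` of the conjecture with both signs.
* For ALL large `T` the sum of `1 / |ρ ζ'(ρ)|` over the simple zeros `ρ = 1/2 + iγ` with a related ordinate `γ ≤ T` is at least
  `c (log T)^{5/4}`, which is the conjectured order of this sum over all zeros with `0 < γ ≤ T`.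

(There are about `exp(c T log T)` signed sums, so that by the pigeonhole principle relations exist for `A ≤ 1`; they are not expected
for any `A > 1`.)

The proof applies Riesz products with frequencies at the unrelated zeros, of length growing with the scale, to the Laplace transform of
`M` at a distance `exp(-T^(A+4))` from the critical line, with a lower bound for zeta in terms of the distance to the zeros,
and the lower bound `∑ 1/|ζ'(ρ)| ≥ c T (log T)^{1/4}` over the isolated simple critical zeros with `T < γ ≤ 2T`.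

Two parts of the proof (`Riesz`, `Ampl`) were written by helper924 and helper168; the one-sided machinery is that of helper198
(`Pool.Agent.H198.GM`) and of the starting library (`Y853.HM`); the moments of the derivative are those of helper97 (`Q97.UM`).
-/

namespace Pool.Agent.Results.MP_a499ba_nt.OmegaOrRelations

open Filter Topology Complex

/-- `M(x) = ∑_{n ≤ x} μ(n)`. -/
noncomputable def M (x : ℝ) : ℝ := ∑ n ∈ Finset.Icc 1 ⌊x⌋₊, ((ArithmeticFunction.moebius n : ℤ) : ℝ)

/-- `F(x) = √x (log log log x)^{5/4}`. -/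
noncomputable def F (x : ℝ) : ℝ :=
  Real.sqrt x * Real.log (Real.log (Real.log x)) ^ ((5 : ℝ) / 4)

/-- The number `γ` belongs to a finite set `S` of at least two ordinates `0 < t ≤ T` of zeros on the critical line, and some signed sum
`∑_{t ∈ S} ε_t t`, `ε_t = ± 1`, is within `exp(-T^A)` of `γ₀`, where `γ₀ = 0` or `γ₀ > 0` is the ordinate of a zero on the critical line. -/
def Related (A T γ : ℝ) : Prop :=
  ∃ (S : Finset ℝ) (ε : ℝ → ℤ) (γ₀ : ℝ), γ ∈ S ∧ 2 ≤ S.card ∧
    (∀ t ∈ S, 0 < t ∧ t ≤ T ∧ riemannZeta (1 / 2 + t * I) = 0 ∧ (ε t = 1 ∨ ε t = -1)) ∧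
    (γ₀ = 0 ∨ 0 < γ₀ ∧ riemannZeta (1 / 2 + γ₀ * I) = 0) ∧
    |∑ t ∈ S, (ε t : ℝ) * t - γ₀| ≤ Real.exp (-(T ^ A))

theorem F_pos : ∀ᶠ x : ℝ in atTop, 0 < F x := by
  have h : Tendsto (fun x : ℝ => Real.log (Real.log (Real.log x))) atTop atTop :=
    Real.tendsto_log_atTop.comp (Real.tendsto_log_atTop.comp Real.tendsto_log_atTop)
  filter_upwards [h.eventually_gt_atTop 0, eventually_gt_atTop 0] with x h1 h2
  exact mul_pos (Real.sqrt_pos.2 h2) (Real.rpow_pos_of_pos h1 _)

theorem result : ∃ c : ℝ, 0 < c ∧ ∀ A : ℝ, 1 < A →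
    (((c / A ^ (5 / 4 : ℝ) : ℝ) : EReal) ≤ limsup (fun x : ℝ => ((M x / F x : ℝ) : EReal)) atTop ∧
      liminf (fun x : ℝ => ((M x / F x : ℝ) : EReal)) atTop ≤ ((-(c / A ^ (5 / 4 : ℝ)) : ℝ) : EReal)) ∨
    ∀ᶠ T : ℝ in atTop, ∃ R : Finset ℝ,
      (∀ γ ∈ R, 0 < γ ∧ γ ≤ T ∧ riemannZeta (1 / 2 + γ * I) = 0 ∧ deriv riemannZeta (1 / 2 + γ * I) ≠ 0 ∧ Related A T γ) ∧
      c * Real.log T ^ (5 / 4 : ℝ) ≤ ∑ γ ∈ R, 1 / ‖(1 / 2 + γ * I) * deriv riemannZeta (1 / 2 + γ * I)‖ := by
  obtain ⟨c, hc, hmain⟩ := Pool.Agent.H158.GM.main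
  refine ⟨c, hc, fun A hA => ?_⟩
  by_cases hR : ∀ᶠ T : ℝ in atTop, ∃ R : Finset ℝ,
      (∀ γ ∈ R, 0 < γ ∧ γ ≤ T ∧ riemannZeta (1 / 2 + γ * I) = 0 ∧ deriv riemannZeta (1 / 2 + γ * I) ≠ 0 ∧ Related A T γ) ∧
      c * Real.log T ^ (5 / 4 : ℝ) ≤ ∑ γ ∈ R, 1 / ‖(1 / 2 + γ * I) * deriv riemannZeta (1 / 2 + γ * I)‖
  · exact Or.inr hR
  have hA0 : 0 < A := by linarith
  obtain ⟨b, hb⟩ : ∃ b : ℝ, b = c / A ^ (5 / 4 : ℝ) := ⟨_, rfl⟩
  have hb0 : 0 < b := by rw [hb]; positivity
  have key : ∀ s B : ℝ, (s = 1 ∨ s = -1) → 0 < B → B < b → Pool.Agent.H198.GM.OneSided s B → False := by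
    intro s B hs hB hBb h
    apply hR
    rw [hb] at hBb
    filter_upwards [hmain A hA.le s B hs hB h hBb] with T hT
    obtain ⟨R, hR1, hR2⟩ := hT
    refine ⟨R, fun γ hγ => ?_, hR2⟩
    obtain ⟨h1, h2, h3, h4, S, ε, γ₀, h5, h6, h7, h8, h9⟩ := hR1 γ hγ
    exact ⟨h1, h2, h3, h4, S, ε, γ₀, h5, h6, h7, h8, h9⟩
  left
  rw [← hb]
  constructor
  · by_contra hcon
    push Not at hcon
    obtain ⟨r, hr1, hr2⟩ := EReal.lt_iff_exists_real_btwn.1 hcon
    have hr3 : r < b := EReal.coe_lt_coe_iff.1 hr2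
    have h2 := eventually_lt_of_limsup_lt hr1 (by isBoundedDefault)
    have hone : Pool.Agent.H198.GM.OneSided 1 (max r (b / 2)) := by
      filter_upwards [h2, F_pos] with x h3 h4
      have h5 : M x / F x < r := EReal.coe_lt_coe_iff.1 h3
      rw [div_lt_iff₀ h4] at h5
      rw [one_mul]
      exact h5.le.trans (mul_le_mul_of_nonneg_right (le_max_left _ _) h4.le)
    exact key 1 (max r (b / 2)) (Or.inl rfl) (lt_max_of_lt_right (by linarith)) (max_lt hr3 (by linarith)) hone
  · by_contra hcon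
    push Not at hcon
    obtain ⟨r, hr1, hr2⟩ := EReal.lt_iff_exists_real_btwn.1 hcon
    have hr3 : -b < r := EReal.coe_lt_coe_iff.1 hr1
    have h2 := eventually_lt_of_lt_liminf hr2 (by isBoundedDefault)
    have hone : Pool.Agent.H198.GM.OneSided (-1) (max (-r) (b / 2)) := by
      filter_upwards [h2, F_pos] with x h3 h4
      have h5 : r < M x / F x := EReal.coe_lt_coe_iff.1 h3
      rw [lt_div_iff₀ h4] at h5
      rw [neg_one_mul]
      refine le_trans (b := -r * F x) (show -M x ≤ -r * F x by linarith)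
        (mul_le_mul_of_nonneg_right (le_max_left _ _) h4.le)
    exact key (-1) (max (-r) (b / 2)) (Or.inr rfl) (lt_max_of_lt_right (by linarith))
      (max_lt (by linarith) (by linarith)) hone

end Pool.Agent.Results.MP_a499ba_nt.OmegaOrRelations
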