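import Pool.Agent.H198.GM.Simple

set_option autoImplicit false

/-!
# One half of Gonek's equality bounds the reciprocals of `ρ ζ'(ρ)`

`M(x) = ∑_{n ≤ x} μ(n)` and `F(x) = √x (log log log x)^{5/4}`, as in Q1.

Let `B ≥ 0` and suppose that the upper limit of `M/F` is at most `B`, or that the lower limit of
`M/F` is at least `-B`. Then all zeros in the critical strip are on the critical line and simple, and
`1 / |ρ ζ'(ρ)| ≤ (B + ε) (log log |Im ρ|)^{5/4}` for all but finitely many zeros `ρ`, for every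
`ε > 0`.
-/

namespace Pool.Agent.Results.MP_a499ba_nt.ReciprocalDerivatives

open Filter Topology Complex

/-- `M(x) = ∑_{n ≤ x} μ(n)`. -/
noncomputable def M (x : ℝ) : ℝ := ∑ n ∈ Finset.Icc 1 ⌊x⌋₊, ((ArithmeticFunction.moebius n : ℤ) : ℝ)

/-- `F(x) = √x (log log log x)^{5/4}`. -/
noncomputable def F (x : ℝ) : ℝ :=
  Real.sqrt x * Real.log (Real.log (Real.log x)) ^ ((5 : ℝ) / 4)

theorem F_pos : ∀ᶠ x : ℝ in atTop, 0 < F x := by
  have h : Tendsto (fun x : ℝ => Real.log (Real.log (Real.log x))) atTop atTop :=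
    Real.tendsto_log_atTop.comp (Real.tendsto_log_atTop.comp Real.tendsto_log_atTop)
  filter_upwards [h.eventually_gt_atTop 0, eventually_gt_atTop 0] with x h1 h2
  exact mul_pos (Real.sqrt_pos.2 h2) (Real.rpow_pos_of_pos h1 _)

theorem one_sided {B B' : ℝ} (hBB : B < B')
    (h : limsup (fun x : ℝ => ((M x / F x : ℝ) : EReal)) atTop ≤ ((B : ℝ) : EReal) ∨
      ((-B : ℝ) : EReal) ≤ liminf (fun x : ℝ => ((M x / F x : ℝ) : EReal)) atTop) :
    ∃ s : ℝ, (s = 1 ∨ s = -1) ∧ Pool.Agent.H198.GM.OneSided s B' := by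
  rcases h with h | h
  · refine ⟨1, Or.inl rfl, ?_⟩
    have h1 : limsup (fun x : ℝ => ((M x / F x : ℝ) : EReal)) atTop < ((B' : ℝ) : EReal) :=
      lt_of_le_of_lt h (EReal.coe_lt_coe_iff.2 hBB)
    have h2 := eventually_lt_of_limsup_lt h1 (by isBoundedDefault)
    filter_upwards [h2, F_pos] with x h3 h4
    have h5 : M x / F x < B' := EReal.coe_lt_coe_iff.1 h3
    rw [div_lt_iff₀ h4] at h5
    rw [one_mul]
    exact h5.le
  · refine ⟨-1, Or.inr rfl, ?_⟩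
    have h1 : ((-B' : ℝ) : EReal) < liminf (fun x : ℝ => ((M x / F x : ℝ) : EReal)) atTop :=
      lt_of_lt_of_le (EReal.coe_lt_coe_iff.2 (by linarith)) h
    have h2 := eventually_lt_of_lt_liminf h1 (by isBoundedDefault)
    filter_upwards [h2, F_pos] with x h3 h4
    have h5 : -B' < M x / F x := EReal.coe_lt_coe_iff.1 h3
    rw [lt_div_iff₀ h4] at h5
    have h6 : -M x ≤ B' * F x := by linarith
    rw [neg_one_mul]
    exact h6

theorem result (B : ℝ) (hB : 0 ≤ B)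
    (h : limsup (fun x : ℝ => ((M x / F x : ℝ) : EReal)) atTop ≤ ((B : ℝ) : EReal) ∨
      ((-B : ℝ) : EReal) ≤ liminf (fun x : ℝ => ((M x / F x : ℝ) : EReal)) atTop) :
    (∀ ρ : ℂ, riemannZeta ρ = 0 → 0 < ρ.re → ρ.re < 1 → ρ.re = 1 / 2 ∧ deriv riemannZeta ρ ≠ 0) ∧
    ∀ ε : ℝ, 0 < ε → ∃ T : ℝ, ∀ ρ : ℂ, riemannZeta ρ = 0 → 0 < ρ.re → ρ.re < 1 → T ≤ |ρ.im| →
      1 / ‖ρ * deriv riemannZeta ρ‖ ≤ (B + ε) * Real.log (Real.log |ρ.im|) ^ ((5 : ℝ) / 4) := by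
  have hpt : ∀ ρ : ℂ, ρ.re = 1 / 2 → ρ = Pool.Agent.Y853.HM.pt ρ.im := by
    intro ρ h
    apply Complex.ext
    · rw [Pool.Agent.Y853.HM.pt_re, h]
    · simp [Pool.Agent.Y853.HM.pt]
  have hsimple : ∀ ρ : ℂ, riemannZeta ρ = 0 → 0 < ρ.re → ρ.re < 1 →
      ρ.re = 1 / 2 ∧ deriv riemannZeta ρ ≠ 0 := by
    obtain ⟨s, hs, h1⟩ := one_sided (show B < B + 1 by linarith) h
    intro ρ hz h2 h3
    have h4 := Pool.Agent.Y853.HM.rh (h1.lint hs (by linarith)) hz h2 h3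
    refine ⟨h4, ?_⟩
    rw [hpt ρ h4] at hz ⊢
    exact Pool.Agent.H198.GM.simple_all hs (by linarith) h1 _ hz
  refine ⟨hsimple, fun ε hε => ?_⟩
  obtain ⟨s, hs, h1⟩ := one_sided (show B < B + ε / 2 by linarith) h
  obtain ⟨T, hT⟩ := eventually_atTop.1 (Pool.Agent.H198.GM.recip hs (by linarith) h1 (half_pos hε))
  refine ⟨T, fun ρ hz h2 h3 h4 => ?_⟩
  obtain ⟨h5, h6⟩ := hsimple ρ hz h2 h3
  have h7 := hT |ρ.im| h4 ρ.im rfl (by rw [← hpt ρ h5]; exact hz)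
  rw [← hpt ρ h5] at h7
  have hne : ρ ≠ 0 := by
    rintro rfl
    simp at h2
  have h8 : 0 < ‖ρ‖ * ‖deriv riemannZeta ρ‖ := mul_pos (norm_pos_iff.2 hne) (norm_pos_iff.2 h6)
  rw [norm_mul, div_le_iff₀ h8]
  have e : B + ε = B + ε / 2 + ε / 2 := by ring
  rw [e]
  exact h7

end Pool.Agent.Results.MP_a499ba_nt.ReciprocalDerivatives
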